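import Pool.Agent.H7.IA.Stmts

/-!
# Board `ia13`, row CMP: the cost of the missing pairs

The sets with exactly one missing pair are counted (a pair and a clique in its common neighbourhood).
-/

set_option autoImplicit false

open Finset

namespace Pool.IA7

open Pool.Agent.H23.KT Pool.Agent.H46.KW Pool.KQ Pool.GT7 Pool.GU7 Pool.HZ7

/-! ### Lower bound for the number of cliques -/

theorem cmp_union {V : Type} [DecidableEq V] (G : SimpleGraph V) (W : Finset V) (j : ℕ)
    (Q : Finset V) : Disjoint Q W →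
    kc G W (j + 1) + ∑ z ∈ Q, kc G (nb G W z) j ≤ kc G (W ∪ Q) (j + 1) := by
  induction Q using Finset.induction_on with
  | empty => intro _; simp
  | insert z Q hz ih =>
    intro hd
    have hd' : Disjoint Q W := hd.mono_left (subset_insert _ _)
    have hzW : z ∉ W := fun h => disjoint_left.1 hd (mem_insert_self _ _) h
    have hzu : z ∉ W ∪ Q := by
      rw [mem_union]
      rintro (h | h)
      · exact hzW h
      · exact hz h
    have h1 := kc_succ G (W := W ∪ insert z Q) (x := z)
      (mem_union_right _ (mem_insert_self _ _)) j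
    have h2 : (W ∪ insert z Q).erase z = W ∪ Q := by
      rw [union_insert, erase_insert hzu]
    have h3 : kc G (nb G W z) j ≤ kc G (nb G (W ∪ insert z Q) z) j := by
      refine kc_mono G ?_ j
      intro y hy
      rw [mem_nb] at hy ⊢
      exact ⟨mem_union_left _ hy.1, hy.2⟩
    rw [sum_insert hz, h1, h2]
    have := ih hd'
    omega

theorem cmp_nn {V : Type} (G : SimpleGraph V) (X : Finset V) (x : V) :
    (nb G X x).card + (non G X x).card = X.card := by
  classical
  have h := Finset.card_filter_add_card_filter_not (s := X) (fun y => G.Adj x y)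
  rw [← h]
  unfold nb non
  rfl

theorem cmp_lower {V : Type} [DecidableEq V] (G : SimpleGraph V) {ι : Type} [DecidableEq ι]
    (h : ℝ) (h0 : 0 ≤ h) (K : Finset ι) : ∀ (j : ℕ) (Q : ι → Finset V) (t : ℝ),
    (∀ i k, i ≠ k → Disjoint (Q i) (Q k)) → (∀ k ∈ K, t ≤ ((Q k).card : ℝ)) →
    (∀ i ∈ K, ∀ u ∈ Q i, ∀ k ∈ K, k ≠ i → ((non G (Q k) u).card : ℝ) ≤ h) →
    0 ≤ t - j * h → (K.card.choose j : ℝ) * (t - j * h) ^ j ≤ kc G (K.biUnion Q) j := by
  classical
  induction K using Finset.induction_on with
  | empty =>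
    intro j Q t _ _ _ _
    rcases j with _ | j
    · simp [kc_zero]
    · simp
  | insert k0 K hk0 ih =>
    intro j Q t hdis hcard hmis hpos
    rcases j with _ | j
    · simp [kc_zero]
    have hK : ∀ k ∈ K, k ∈ insert k0 K := fun k hk => mem_insert_of_mem hk
    have hun : (insert k0 K).biUnion Q = K.biUnion Q ∪ Q k0 := by
      rw [biUnion_insert, union_comm]
    have hd : Disjoint (Q k0) (K.biUnion Q) := by
      rw [disjoint_biUnion_right]
      intro k hk
      refine hdis k0 k ?_
      rintro rfl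
      exact hk0 hk
    have h1 := cmp_union G (K.biUnion Q) j (Q k0) hd
    have h2 := ih (j + 1) Q t hdis (fun k hk => hcard k (hK k hk))
      (fun i hi u hu k hk hki => hmis i (hK i hi) u hu k (hK k hk) hki) hpos
    have hc : ((j + 1 : ℕ) : ℝ) = (j : ℝ) + 1 := by push_cast; ring
    rw [hc] at hpos h2 ⊢
    have h3 : ∀ z ∈ Q k0, (K.card.choose j : ℝ) * (t - ((j : ℝ) + 1) * h) ^ j ≤
        kc G (nb G (K.biUnion Q) z) j := by
      intro z hz
      have h4 := ih j (fun k => nb G (Q k) z) (t - h)
        (fun i k hik => (hdis i k hik).mono (nb_subset G _ _) (nb_subset G _ _))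
        (by
          intro k hk
          have e1 := cmp_nn G (Q k) z
          have e2 := hmis k0 (mem_insert_self _ _) z hz k (hK k hk) (by
            rintro rfl
            exact hk0 hk)
          have e3 := hcard k (hK k hk)
          have e4 : ((nb G (Q k) z).card : ℝ) + ((non G (Q k) z).card : ℝ) =
              ((Q k).card : ℝ) := by exact_mod_cast e1
          linarith)
        (by
          intro i hi u hu k hk hki
          have hu' : u ∈ Q i := nb_subset G _ _ hu
          refine le_trans ?_ (hmis i (hK i hi) u hu' k (hK k hk) hki)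
          have : non G (nb G (Q k) z) u ⊆ non G (Q k) u := by
            intro y hy
            unfold non at hy ⊢
            rw [mem_filter] at hy ⊢
            exact ⟨nb_subset G _ _ hy.1, hy.2⟩
          exact_mod_cast card_le_card this)
        (by linarith)
      have e5 : t - h - (j : ℝ) * h = t - ((j : ℝ) + 1) * h := by ring
      rw [e5] at h4
      refine h4.trans ?_
      have : kc G (K.biUnion fun k => nb G (Q k) z) j ≤ kc G (nb G (K.biUnion Q) z) j := by
        refine kc_mono G ?_ j
        intro y hy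
        rw [mem_biUnion] at hy
        obtain ⟨k, hk, hy⟩ := hy
        rw [mem_nb] at hy ⊢
        exact ⟨mem_biUnion.2 ⟨k, hk, hy.1⟩, hy.2⟩
      exact_mod_cast this
    set s : ℝ := t - ((j : ℝ) + 1) * h with hs
    have h5 : ((Q k0).card : ℝ) * ((K.card.choose j : ℝ) * s ^ j) ≤
        ∑ z ∈ Q k0, (kc G (nb G (K.biUnion Q) z) j : ℝ) := by
      rw [← nsmul_eq_mul, ← sum_const]
      exact sum_le_sum h3
    have h6 : s ≤ ((Q k0).card : ℝ) := by
      have := hcard k0 (mem_insert_self _ _)
      have hj : (0 : ℝ) ≤ (j : ℝ) + 1 := by positivity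
      have : (0 : ℝ) ≤ ((j : ℝ) + 1) * h := mul_nonneg hj h0
      linarith
    have h7 : s * ((K.card.choose j : ℝ) * s ^ j) ≤
        ((Q k0).card : ℝ) * ((K.card.choose j : ℝ) * s ^ j) :=
      mul_le_mul_of_nonneg_right h6 (by positivity)
    have h8 : ((kc G (K.biUnion Q) (j + 1) + ∑ z ∈ Q k0, kc G (nb G (K.biUnion Q) z) j : ℕ) : ℝ) ≤
        (kc G (K.biUnion Q ∪ Q k0) (j + 1) : ℝ) := by exact_mod_cast h1
    push_cast at h8
    rw [hun, card_insert_of_notMem hk0, Nat.choose_succ_succ]
    push_cast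
    have e6 : ((K.card.choose j : ℝ) + (K.card.choose (j + 1) : ℝ)) * s ^ (j + 1) =
        s * ((K.card.choose j : ℝ) * s ^ j) + (K.card.choose (j + 1) : ℝ) * s ^ (j + 1) := by
      ring
    rw [e6]
    linarith

/-! ### Partial transversals -/

/-- The `u`-sets with at most one vertex in each part. -/
noncomputable def cmpT {V : Type} [DecidableEq V] {b : ℕ} (P : Fin b → Finset V) (u : ℕ) :
    Finset (Finset V) :=
  ((un P).powersetCard u).filter (fun S => ∀ i, (S ∩ P i).card ≤ 1)

theorem cmp_T {V : Type} [DecidableEq V] {b : ℕ} (P : Fin b → Finset V) (u : ℕ)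
    (S : Finset V) : S ∈ cmpT P u ↔ S ⊆ un P ∧ S.card = u ∧ ∀ i, (S ∩ P i).card ≤ 1 := by
  unfold cmpT
  rw [mem_filter, mem_powersetCard, and_assoc]

theorem cmp_un {V : Type} [DecidableEq V] {b : ℕ} (P : Fin b → Finset V) (x : V) :
    x ∈ un P ↔ ∃ i, x ∈ P i := by
  unfold un
  simp

theorem cmp_es (hE : ESTStmt) {V : Type} [DecidableEq V] {b : ℕ} (P : Fin b → Finset V)
    (hd : ∀ i k, i ≠ k → Disjoint (P i) (P k)) (u : ℕ) :
    (cmpT P u).card ≤ es (sz P) u := by
  classical
  rw [hE.1]
  have h1 : cmpT P u ⊆ ((univ : Finset (Fin b)).powersetCard u).biUnion (fun I =>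
      (I.pi P).image (fun x => I.attach.image (fun i => x i.1 i.2))) := by
    intro S hS
    rw [cmp_T] at hS
    obtain ⟨hS1, hS2, hS3⟩ := hS
    set I : Finset (Fin b) := univ.filter (fun i => (S ∩ P i).Nonempty) with hI
    have hne : ∀ i, i ∈ I → (S ∩ P i).Nonempty := fun i hi => (mem_filter.1 hi).2
    have hcov : S = univ.biUnion (fun i => S ∩ P i) := by
      ext s
      rw [mem_biUnion]
      constructor
      · intro hs
        obtain ⟨i, hi⟩ := (cmp_un P s).1 (hS1 hs)
        exact ⟨i, mem_univ i, mem_inter.2 ⟨hs, hi⟩⟩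
      · rintro ⟨i, _, hs⟩
        exact (mem_inter.1 hs).1
    have hcard : I.card = u := by
      have h2 : S.card = ∑ i, (S ∩ P i).card := by
        conv_lhs => rw [hcov]
        refine card_biUnion ?_
        intro i _ k _ hik
        exact (hd i k hik).mono inter_subset_right inter_subset_right
      have h3 : ∀ i, (S ∩ P i).card = if (S ∩ P i).Nonempty then 1 else 0 := by
        intro i
        by_cases hi : (S ∩ P i).Nonempty
        · rw [if_pos hi]
          have := hS3 i
          have := card_pos.2 hi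
          omega
        · rw [if_neg hi]
          rw [not_nonempty_iff_eq_empty] at hi
          rw [hi, card_empty]
      rw [sum_congr rfl (fun i _ => h3 i), ← card_filter, ← hI, hS2] at h2
      exact h2.symm
    rw [mem_biUnion]
    refine ⟨I, mem_powersetCard.2 ⟨subset_univ _, hcard⟩, ?_⟩
    rw [mem_image]
    refine ⟨fun i hi => (hne i hi).choose, ?_, ?_⟩
    · rw [mem_pi]
      intro i hi
      exact (mem_inter.1 (hne i hi).choose_spec).2
    · ext s
      rw [mem_image]
      constructor
      · rintro ⟨i, _, rfl⟩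
        exact (mem_inter.1 (hne i.1 i.2).choose_spec).1
      · intro hs
        obtain ⟨i, hi⟩ := (cmp_un P s).1 (hS1 hs)
        have hiI : i ∈ I := mem_filter.2 ⟨mem_univ i, ⟨s, mem_inter.2 ⟨hs, hi⟩⟩⟩
        refine ⟨⟨i, hiI⟩, mem_attach _ _, ?_⟩
        exact card_le_one.1 (hS3 i) _ (hne i hiI).choose_spec _ (mem_inter.2 ⟨hs, hi⟩)
  refine (card_le_card h1).trans (card_biUnion_le.trans (sum_le_sum fun I _ => ?_))
  refine card_image_le.trans ?_
  rw [card_pi]
  rfl

/-! ### Sets with exactly one missing pair -/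

/-- A missing pair. -/
def cmpM {V : Type} (G : SimpleGraph V) {b : ℕ} (P : Fin b → Finset V) (x y : V) : Prop :=
  ¬ G.Adj x y ∧ ∃ i k, i ≠ k ∧ x ∈ P i ∧ y ∈ P k

open Classical in
/-- The ordered missing pairs. -/
noncomputable def cmpA {V : Type} [DecidableEq V] (G : SimpleGraph V) {b : ℕ}
    (P : Fin b → Finset V) : Finset (Σ _ : V, V) :=
  (un P).sigma (fun x => (un P).filter (fun y => cmpM G P x y))

/-- `q` is the only missing pair of `S`. -/
def cmpR {V : Type} (G : SimpleGraph V) (q : Σ _ : V, V) (S : Finset V) : Prop :=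
  q.1 ∈ S ∧ q.2 ∈ S ∧ ∀ x ∈ S, ∀ y ∈ S, x ≠ y → ¬ G.Adj x y →
    (x = q.1 ∧ y = q.2) ∨ (x = q.2 ∧ y = q.1)

theorem cmp_tot {V : Type} [DecidableEq V] (G : SimpleGraph V) {b : ℕ} (P : Fin b → Finset V)
    (hd : ∀ i k, i ≠ k → Disjoint (P i) (P k)) : tot G P ≤ (cmpA G P).card := by
  classical
  unfold cmpA
  rw [card_sigma]
  unfold un
  rw [sum_biUnion (fun i _ k _ hik => hd i k hik)]
  unfold tot
  refine sum_le_sum fun i _ => ?_
  rw [sum_comm]
  refine sum_le_sum fun x hx => ?_
  rw [← card_biUnion]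
  · refine card_le_card ?_
    intro y hy
    rw [mem_biUnion] at hy
    obtain ⟨k, hk, hy⟩ := hy
    unfold non at hy
    rw [mem_filter] at hy
    rw [mem_filter, mem_biUnion]
    exact ⟨⟨k, mem_univ k, hy.1⟩, hy.2, i, k, (ne_of_mem_erase hk).symm, hx, hy.1⟩
  · intro k _ l _ hkl
    refine (hd k l hkl).mono ?_ ?_ <;> unfold non <;> exact filter_subset _ _

theorem cmp_count {V : Type} [DecidableEq V] (G : SimpleGraph V) {b : ℕ}
    (P : Fin b → Finset V) (hP : Par G P) (w : ℕ) :
    2 * kc G (un P) (w + 2) + ∑ q ∈ cmpA G P, kc G (nb G (nb G (un P) q.1) q.2) w ≤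
      2 * (cmpT P (w + 2)).card := by
  classical
  set B : Finset (Finset V) := (cmpT P (w + 2)).filter (fun S => ¬ G.IsClique (S : Set V)) with hB
  have hsame : ∀ i x y, x ∈ P i → y ∈ P i → ¬ G.Adj x y := fun i x y hx hy => hP.ind i x hx y hy
  have h1 : kc G (un P) (w + 2) + B.card ≤ (cmpT P (w + 2)).card := by
    rw [← card_filter_add_card_filter_not (s := cmpT P (w + 2))
      (fun S : Finset V => G.IsClique (S : Set V))]
    refine Nat.add_le_add_right ?_ _
    rw [kc_eq]
    refine card_le_card ?_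
    intro S hS
    rw [mem_clq] at hS
    rw [mem_filter, cmp_T]
    refine ⟨⟨hS.1, hS.2.1, ?_⟩, hS.2.2⟩
    intro i
    rw [card_le_one]
    intro x hx y hy
    rw [mem_inter] at hx hy
    by_contra hne
    exact hsame i x y hx.2 hy.2 (hS.2.2 (mem_coe.2 hx.1) (mem_coe.2 hy.1) hne)
  have h2 : ∑ q ∈ cmpA G P, kc G (nb G (nb G (un P) q.1) q.2) w ≤
      ∑ q ∈ cmpA G P, (B.bipartiteAbove (cmpR G) q).card := by
    refine sum_le_sum fun q hq => ?_
    obtain ⟨x, y⟩ := q
    unfold cmpA at hq
    rw [mem_sigma, mem_filter] at hq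
    obtain ⟨hx, hy, hxy, i, k, hik, hxi, hyk⟩ := hq
    simp only at hx hy hxy hxi hyk ⊢
    have hne : x ≠ y := by
      rintro rfl
      exact disjoint_left.1 (hP.dis i k hik) hxi hyk
    rw [kc_eq]
    refine card_le_card_of_injOn (fun T => insert x (insert y T)) ?_ ?_
    · intro T hT
      rw [mem_coe, mem_clq] at hT
      obtain ⟨hT1, hT2, hT3⟩ := hT
      have hTx : ∀ v ∈ T, G.Adj x v := fun v hv =>
        ((mem_nb G).1 ((mem_nb G).1 (hT1 hv)).1).2
      have hTy : ∀ v ∈ T, G.Adj y v := fun v hv => ((mem_nb G).1 (hT1 hv)).2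
      have hTu : ∀ v ∈ T, v ∈ un P := fun v hv =>
        ((mem_nb G).1 ((mem_nb G).1 (hT1 hv)).1).1
      have hxT : x ∉ T := fun h => G.loopless.irrefl x (hTx x h)
      have hyT : y ∉ T := fun h => G.loopless.irrefl y (hTy y h)
      have hone : ∀ u ∈ insert x (insert y T), ∀ v ∈ insert x (insert y T), u ≠ v →
          ¬ G.Adj u v → (u = x ∧ v = y) ∨ (u = y ∧ v = x) := by
        intro u hu v hv huv hn
        rw [mem_insert, mem_insert] at hu hv
        rcases hu with rfl | rfl | hu
        · rcases hv with rfl | rfl | hv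
          · exact absurd rfl huv
          · exact Or.inl ⟨rfl, rfl⟩
          · exact absurd (hTx v hv) hn
        · rcases hv with rfl | rfl | hv
          · exact Or.inr ⟨rfl, rfl⟩
          · exact absurd rfl huv
          · exact absurd (hTy v hv) hn
        · rcases hv with rfl | rfl | hv
          · exact absurd (hTx u hu).symm hn
          · exact absurd (hTy u hu).symm hn
          · exact absurd (hT3 (mem_coe.2 hu) (mem_coe.2 hv) huv) hn
      have hxS : x ∈ insert x (insert y T) := mem_insert_self _ _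
      have hyS : y ∈ insert x (insert y T) := mem_insert_of_mem (mem_insert_self _ _)
      rw [mem_coe, mem_bipartiteAbove, hB, mem_filter, cmp_T]
      refine ⟨⟨⟨?_, ?_, ?_⟩, ?_⟩, hxS, hyS, hone⟩
      · intro v hv
        rw [mem_insert, mem_insert] at hv
        rcases hv with rfl | rfl | hv
        · exact hx
        · exact hy
        · exact hTu v hv
      · rw [card_insert_of_notMem, card_insert_of_notMem hyT, hT2]
        rw [mem_insert]
        rintro (h | h)
        · exact hne h
        · exact hxT h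
      · intro j
        rw [card_le_one]
        intro u hu v hv
        rw [mem_inter] at hu hv
        by_contra huv
        rcases hone u hu.1 v hv.1 huv (hsame j u v hu.2 hv.2) with ⟨rfl, rfl⟩ | ⟨rfl, rfl⟩
        · have e1 : i = j := by
            by_contra hij
            exact disjoint_left.1 (hP.dis i j hij) hxi hu.2
          have e2 : k = j := by
            by_contra hkj
            exact disjoint_left.1 (hP.dis k j hkj) hyk hv.2
          exact hik (e1.trans e2.symm)
        · have e1 : i = j := by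
            by_contra hij
            exact disjoint_left.1 (hP.dis i j hij) hxi hv.2
          have e2 : k = j := by
            by_contra hkj
            exact disjoint_left.1 (hP.dis k j hkj) hyk hu.2
          exact hik (e1.trans e2.symm)
      · intro hcl
        exact hxy (hcl (mem_coe.2 hxS) (mem_coe.2 hyS) hne)
    · intro T hT T' hT' heq
      rw [mem_coe, mem_clq] at hT hT'
      have key : ∀ U : Finset V, U ⊆ nb G (nb G (un P) x) y →
          ((insert x (insert y U)).erase x).erase y = U := by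
        intro U hU
        have hxU : x ∉ U := fun h => G.loopless.irrefl x ((mem_nb G).1 ((mem_nb G).1 (hU h)).1).2
        have hyU : y ∉ U := fun h => G.loopless.irrefl y ((mem_nb G).1 (hU h)).2
        rw [erase_insert, erase_insert hyU]
        rw [mem_insert]
        rintro (h | h)
        · exact hne h
        · exact hxU h
      rw [← key T hT.1, ← key T' hT'.1]
      simp only at heq
      rw [heq]
  have h3 : ∑ S ∈ B, ((cmpA G P).bipartiteBelow (cmpR G) S).card ≤ ∑ S ∈ B, 2 := by
    refine sum_le_sum fun S _ => ?_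
    rcases (((cmpA G P).bipartiteBelow (cmpR G) S)).eq_empty_or_nonempty with h | ⟨q, hq⟩
    · rw [h]; simp
    · have hsub : (cmpA G P).bipartiteBelow (cmpR G) S ⊆ {q, ⟨q.2, q.1⟩} := by
        intro q' hq'
        rw [mem_bipartiteBelow] at hq hq'
        obtain ⟨x', y'⟩ := q'
        obtain ⟨hA, hx', hy', -⟩ := hq'
        unfold cmpA at hA
        rw [mem_sigma, mem_filter] at hA
        obtain ⟨-, -, hxy', i, k, hik, hxi, hyk⟩ := hA
        simp only at hx' hy' hxy' hxi hyk
        have hne : x' ≠ y' := by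
          rintro rfl
          exact disjoint_left.1 (hP.dis i k hik) hxi hyk
        rw [mem_insert, mem_singleton]
        rcases hq.2.2.2 x' hx' y' hy' hne hxy' with ⟨h1, h2⟩ | ⟨h1, h2⟩
        · left
          rw [h1, h2]
        · right
          rw [h1, h2]
      exact (card_le_card hsub).trans card_le_two
  have h4 := sum_card_bipartiteAbove_eq_sum_card_bipartiteBelow (s := cmpA G P) (t := B) (cmpR G)
  rw [sum_const, smul_eq_mul] at h3
  omega

/-! ### The row -/

theorem cmp_thm (hE : ESTStmt) : CMPStmt := by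
  classical
  intro p w hwp C ε hC hε
  set N : ℝ := ((p + 1).choose w : ℝ) * ((w : ℝ) * ((w : ℝ) + 3)) with hN
  have hN0 : 0 ≤ N := by positivity
  have hw3 : (0 : ℝ) < (w : ℝ) + 3 := by positivity
  refine ⟨min (1 / ((w : ℝ) + 3)) (ε / (C * (N + 1))), by positivity, ?_, 0, ?_⟩
  · refine (min_le_left _ _).trans ?_
    rw [div_le_one hw3]
    linarith [(Nat.cast_nonneg w : (0 : ℝ) ≤ w)]
  intro a _ V _ G e f P he0 hef hff hP hsz hmis htot
  set F : ℝ := min (1 / ((w : ℝ) + 3)) (ε / (C * (N + 1))) with hF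
  have hF0 : 0 < F := by
    rw [hF]
    positivity
  have ha0 : (0 : ℝ) ≤ a := Nat.cast_nonneg a
  have hF1 : ((w : ℝ) + 3) * F ≤ 1 := by
    have := min_le_left (1 / ((w : ℝ) + 3)) (ε / (C * (N + 1)))
    calc ((w : ℝ) + 3) * F ≤ ((w : ℝ) + 3) * (1 / ((w : ℝ) + 3)) :=
        mul_le_mul_of_nonneg_left this hw3.le
      _ = 1 := by field_simp
  have hF2 : C * (N * F) ≤ ε := by
    have h1 := min_le_right (1 / ((w : ℝ) + 3)) (ε / (C * (N + 1)))
    have h2 : F * (C * (N + 1)) ≤ ε := by
      rw [← le_div_iff₀ (by positivity)]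
      exact h1
    have h3 : 0 ≤ C * F := by positivity
    nlinarith
  -- the lower bound for every missing pair
  have hlow : ∀ q ∈ cmpA G P, ((p + 1).choose w : ℝ) * ((1 - ((w : ℝ) + 3) * F) * a) ^ w ≤
      (kc G (nb G (nb G (un P) q.1) q.2) w : ℝ) := by
    intro q hq
    obtain ⟨x, y⟩ := q
    unfold cmpA at hq
    rw [mem_sigma, mem_filter] at hq
    obtain ⟨hx, hy, hxy, i, k, hik, hxi, hyk⟩ := hq
    simp only at hx hy hxy hxi hyk ⊢
    set K : Finset (Fin (p + 3)) := (univ.erase i).erase k with hK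
    have hKc : K.card = p + 1 := by
      rw [hK, card_erase_of_mem (mem_erase.2 ⟨hik.symm, mem_univ k⟩),
        card_erase_of_mem (mem_univ i), card_univ, Fintype.card_fin]
      omega
    have h1 := cmp_lower G (F * a) (by positivity) K w (fun l => nb G (nb G (P l) x) y)
      ((1 - 3 * F) * a)
      (fun l m hlm => (hP.dis l m hlm).mono ((nb_subset G _ _).trans (nb_subset G _ _))
        ((nb_subset G _ _).trans (nb_subset G _ _)))
      (by
        intro l hl
        have hl1 : l ≠ k := ne_of_mem_erase hl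
        have hl2 : l ≠ i := ne_of_mem_erase (mem_of_mem_erase hl)
        have e1 : ((nb G (P l) x).card : ℝ) + ((non G (P l) x).card : ℝ) = ((P l).card : ℝ) := by
          exact_mod_cast cmp_nn G (P l) x
        have e2 : ((nb G (nb G (P l) x) y).card : ℝ) + ((non G (nb G (P l) x) y).card : ℝ) =
            ((nb G (P l) x).card : ℝ) := by
          exact_mod_cast cmp_nn G (nb G (P l) x) y
        have e3 : ((non G (nb G (P l) x) y).card : ℝ) ≤ ((non G (P l) y).card : ℝ) := by
          have : non G (nb G (P l) x) y ⊆ non G (P l) y := by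
            intro z hz
            unfold non at hz ⊢
            rw [mem_filter] at hz ⊢
            exact ⟨nb_subset G _ _ hz.1, hz.2⟩
          exact_mod_cast card_le_card this
        have e4 := hmis i x hxi l hl2
        have e5 := hmis k y hyk l hl1
        have e6 := (hsz l).1
        have e7 : f * a ≤ F * a := mul_le_mul_of_nonneg_right hff ha0
        have e8 : (1 - F) * (a : ℝ) ≤ (1 - e) * a :=
          mul_le_mul_of_nonneg_right (by linarith) ha0
        have e9 : (1 - 3 * F) * (a : ℝ) = (1 - F) * a - F * a - F * a := by ring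
        rw [e9]
        linarith)
      (by
        intro l _ u hu m _ hml
        have hu' : u ∈ P l := nb_subset G _ _ (nb_subset G _ _ hu)
        have e4 := hmis l u hu' m hml
        have e7 : f * a ≤ F * a := mul_le_mul_of_nonneg_right hff ha0
        have e3 : ((non G (nb G (nb G (P m) x) y) u).card : ℝ) ≤ ((non G (P m) u).card : ℝ) := by
          have : non G (nb G (nb G (P m) x) y) u ⊆ non G (P m) u := by
            intro z hz
            unfold non at hz ⊢
            rw [mem_filter] at hz ⊢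
            exact ⟨nb_subset G _ _ (nb_subset G _ _ hz.1), hz.2⟩
          exact_mod_cast card_le_card this
        linarith)
      (by
        have : (1 - 3 * F) * (a : ℝ) - (w : ℝ) * (F * a) = (1 - ((w : ℝ) + 3) * F) * a := by ring
        rw [this]
        exact mul_nonneg (by linarith) ha0)
    rw [hKc] at h1
    have e10 : (1 - 3 * F) * (a : ℝ) - (w : ℝ) * (F * a) = (1 - ((w : ℝ) + 3) * F) * a := by ring
    rw [e10] at h1
    refine h1.trans ?_
    have : kc G (K.biUnion fun l => nb G (nb G (P l) x) y) w ≤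
        kc G (nb G (nb G (un P) x) y) w := by
      refine kc_mono G ?_ w
      intro z hz
      rw [mem_biUnion] at hz
      obtain ⟨l, _, hz⟩ := hz
      rw [mem_nb, mem_nb] at hz ⊢
      exact ⟨⟨(cmp_un P z).2 ⟨l, hz.1.1⟩, hz.1.2⟩, hz.2⟩
    exact_mod_cast this
  have hcount := cmp_count G P hP w
  have hes := cmp_es hE P hP.dis (w + 2)
  have htt := cmp_tot G P hP.dis
  set c : ℝ := ((p + 1).choose w : ℝ) * ((1 - ((w : ℝ) + 3) * F) * a) ^ w with hc
  have hc0 : 0 ≤ c := by
    rw [hc]
    have : 0 ≤ (1 - ((w : ℝ) + 3) * F) * (a : ℝ) := mul_nonneg (by linarith) ha0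
    positivity
  have h1 : ((cmpA G P).card : ℝ) * c ≤
      ∑ q ∈ cmpA G P, (kc G (nb G (nb G (un P) q.1) q.2) w : ℝ) := by
    rw [← nsmul_eq_mul, ← sum_const]
    exact sum_le_sum hlow
  have h2 : (tot G P : ℝ) * c ≤ ((cmpA G P).card : ℝ) * c :=
    mul_le_mul_of_nonneg_right (by exact_mod_cast htt) hc0
  have h3 : ((2 * kc G (un P) (w + 2) +
      ∑ q ∈ cmpA G P, kc G (nb G (nb G (un P) q.1) q.2) w : ℕ) : ℝ) ≤
      ((2 * es (sz P) (w + 2) : ℕ) : ℝ) := by
    exact_mod_cast hcount.trans (Nat.mul_le_mul_left 2 hes)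
  push_cast at h3
  -- Bernoulli
  have h4 : 1 - (w : ℝ) * (((w : ℝ) + 3) * F) ≤ (1 - ((w : ℝ) + 3) * F) ^ w := by
    have := one_add_mul_le_pow (a := -(((w : ℝ) + 3) * F)) (by linarith) w
    calc 1 - (w : ℝ) * (((w : ℝ) + 3) * F) = 1 + (w : ℝ) * -(((w : ℝ) + 3) * F) := by ring
      _ ≤ (1 + -(((w : ℝ) + 3) * F)) ^ w := this
      _ = _ := by ring_nf
  have haw : (0 : ℝ) ≤ (a : ℝ) ^ w := by positivity
  have h5 : ((p + 1).choose w : ℝ) * (a : ℝ) ^ w - N * F * (a : ℝ) ^ w ≤ c := by
    have hch : (0 : ℝ) ≤ ((p + 1).choose w : ℝ) * (a : ℝ) ^ w := by positivity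
    have := mul_le_mul_of_nonneg_left h4 hch
    calc ((p + 1).choose w : ℝ) * (a : ℝ) ^ w - N * F * (a : ℝ) ^ w =
        ((p + 1).choose w : ℝ) * (a : ℝ) ^ w * (1 - (w : ℝ) * (((w : ℝ) + 3) * F)) := by
          rw [hN]; ring
      _ ≤ ((p + 1).choose w : ℝ) * (a : ℝ) ^ w * (1 - ((w : ℝ) + 3) * F) ^ w := this
      _ = c := by rw [hc, mul_pow]; ring
  have ht0 : (0 : ℝ) ≤ tot G P := Nat.cast_nonneg _
  have h6 := mul_le_mul_of_nonneg_left h5 ht0
  have h7 : (tot G P : ℝ) * (N * F * (a : ℝ) ^ w) ≤ (C * a) * (N * F * (a : ℝ) ^ w) :=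
    mul_le_mul_of_nonneg_right htot (by positivity)
  have h8 : (C * a) * (N * F * (a : ℝ) ^ w) ≤ ε * (a : ℝ) ^ (w + 1) := by
    have e1 : (C * a) * (N * F * (a : ℝ) ^ w) = (C * (N * F)) * (a : ℝ) ^ (w + 1) := by ring
    rw [e1]
    exact mul_le_mul_of_nonneg_right hF2 (by positivity)
  have h9 : (tot G P : ℝ) * (((p + 1).choose w : ℝ) * (a : ℝ) ^ w - N * F * (a : ℝ) ^ w) =
      2 * ((tot G P : ℝ) / 2 * (((p + 1).choose w : ℝ) * (a : ℝ) ^ w)) -
        (tot G P : ℝ) * (N * F * (a : ℝ) ^ w) := by ring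
  rw [h9] at h6
  have h10 : (0 : ℝ) ≤ ε * (a : ℝ) ^ (w + 1) := by positivity
  linarith

end Pool.IA7
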